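import Pool.Agent.Helper20.QD.St4

/-!
# Project QD, part B, module FQI: comparison of norms
-/

set_option autoImplicit false

open Matrix

namespace Pool.Agent.Helper82.QD

open Pool.Agent.Helper35.PM Pool.Agent.Helper20.QD

theorem hFQI (hLMX : StLMX) (hFSB : StFSB) : StFQI := by
  intro Γ _ ρ1 ρ2 hcc
  obtain ⟨h2, hmul, -⟩ := hLMX
  obtain ⟨F, c, C, hF, hc, hC, hch⟩ := hFSB Γ ρ1 hcc
  obtain ⟨M0, hM0⟩ : ∃ M0 : ℝ, ∀ s ∈ F, hs (ρ2 s : Mat) ≤ M0 := by
    obtain ⟨M0, hM0⟩ := (hF.image (fun s => hs (ρ2 s : Mat))).bddAbove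
    exact ⟨M0, fun s hs' => hM0 ⟨s, hs', rfl⟩⟩
  obtain ⟨M, hM⟩ : ∃ M : ℝ, M = max 2 M0 := ⟨_, rfl⟩
  have hM2 : 2 ≤ M := by
    rw [hM]
    exact le_max_left _ _
  have hMF : ∀ s ∈ F, hs (ρ2 s : Mat) ≤ M := by
    intro s hs'
    rw [hM]
    exact (hM0 s hs').trans (le_max_right _ _)
  have hlog : 0 < Real.log M := Real.log_pos (by linarith)
  refine ⟨C * Real.log M, 2 * Real.exp (C * Real.log M), by positivity, by positivity, ?_⟩
  intro γ
  obtain ⟨N, g, i0, m, hg0, hgN, -, hgF, -, -, hN⟩ := hch 1 γ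
  have hone : hs (ρ2 (1 : Γ) : Mat) = 2 := by
    rw [map_one]
    unfold hs
    simp [Fin.sum_univ_two, Matrix.one_apply]
    norm_num
  have hstep : ∀ i : ℕ, i ≤ N → hs (ρ2 (g i) : Mat) ≤ 2 * M ^ i := by
    intro i
    induction i with
    | zero =>
      intro _
      rw [hg0, hone, pow_zero, mul_one]
    | succ i ih =>
      intro hi
      have h1 := ih (by omega)
      have h3 := hgF i (by omega)
      have h4 : g (i + 1) = g i * ((g i)⁻¹ * g (i + 1)) := by group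
      have h5 : hs (ρ2 (g (i + 1)) : Mat) ≤
          hs (ρ2 (g i) : Mat) * hs (ρ2 ((g i)⁻¹ * g (i + 1)) : Mat) := by
        conv_lhs => rw [h4, map_mul]
        exact hmul _ _
      have h6 := hMF _ h3
      have h7 : 0 ≤ hs (ρ2 ((g i)⁻¹ * g (i + 1)) : Mat) := by
        have := h2 (ρ2 ((g i)⁻¹ * g (i + 1)))
        linarith
      have h8 : 0 ≤ 2 * M ^ i := by positivity
      calc hs (ρ2 (g (i + 1)) : Mat) ≤ _ := h5
        _ ≤ 2 * M ^ i * M := mul_le_mul h1 h6 h7 h8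
        _ = 2 * M ^ (i + 1) := by ring
  have hfin := hstep N le_rfl
  rw [hgN] at hfin
  rw [inv_one, one_mul] at hN
  have hh : 2 ≤ hs (ρ1 γ : Mat) := h2 (ρ1 γ)
  have hh0 : 0 < hs (ρ1 γ : Mat) := by linarith
  refine hfin.trans ?_
  have hMp : M ^ N = Real.exp (N * Real.log M) := by
    rw [Real.exp_nat_mul, Real.exp_log (by linarith)]
  rw [hMp, Real.rpow_def_of_pos hh0, mul_assoc, ← Real.exp_add]
  refine mul_le_mul_of_nonneg_left (Real.exp_le_exp.mpr ?_) (by norm_num)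
  calc (N : ℝ) * Real.log M ≤ C * (1 + Real.log (hs (ρ1 γ : Mat))) * Real.log M :=
        mul_le_mul_of_nonneg_right hN hlog.le
    _ = C * Real.log M + Real.log (hs (ρ1 γ : Mat)) * (C * Real.log M) := by ring

end Pool.Agent.Helper82.QD
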